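import Pool.Agent.Y205.FW.Final

/-!
# Segre's conjecture when a fixed fraction of the points has comparable large multiplicity

`n` general points of the plane with positive multiplicities `w i ≤ M`, which take at most `r`
different values. Suppose that a fraction `θ` of the points (`0 < θ ≤ 1`) has multiplicity at least
`M / ρ` (`ρ ≥ 1`), and that `10 ^ 9 ρ ^ 5 r ^ 2 ≤ θ ^ 3 n`. The other points may have arbitrary
positive multiplicities, there is no bound on `M`, and a value may be attained by a single point.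

Then the linear system of the curves of degree `d` with the multiplicities `w i` at these points has
the expected dimension for EVERY `d` (with one and the same open set of points for all degrees), so
it is never special. The open set is defined over `ℚ`, and the statement holds over every field of
characteristic zero.
-/

set_option autoImplicit false

namespace Pool.Agent.Results.MP_cfebfb_ag.LargeFraction

open Pool.Agent Finset

/-- The ideal of the point `(P 0 : P 1 : 1)` of the projective plane. -/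
noncomputable def pointIdeal (K : Type) [Field K] (P : Fin 2 → K) : Ideal (MvPolynomial (Fin 3) K) :=
  Ideal.span {MvPolynomial.X 0 - MvPolynomial.C (P 0) * MvPolynomial.X 2,
    MvPolynomial.X 1 - MvPolynomial.C (P 1) * MvPolynomial.X 2}

/-- The forms of degree `d` with multiplicity at least `w i` at the point `P i`, for all `i`. -/
noncomputable def forms (K : Type) [Field K] {n : ℕ} (w : Fin n → ℕ) (P : Fin n → Fin 2 → K) (d : ℕ) :
    Submodule K (MvPolynomial (Fin 3) K) :=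
  MvPolynomial.homogeneousSubmodule (Fin 3) K d ⊓
    Submodule.restrictScalars K (⨅ i : Fin n, pointIdeal K (P i) ^ w i)

theorem result (n r M : ℕ) (ρ θ : ℝ) (w : Fin n → ℕ) (hM : 1 ≤ M) (hρ : 1 ≤ ρ) (hr : 1 ≤ r)
    (hθ : 0 < θ) (hθ1 : θ ≤ 1) (h0 : ∀ i, 1 ≤ w i) (h1 : ∀ i, w i ≤ M)
    (h2 : θ * n ≤ ((univ.filter fun i => (M : ℝ) ≤ ρ * w i).card : ℝ))
    (h3 : (univ.image w).card ≤ r)
    (hn : 1000000000 * ρ ^ 5 * (r : ℝ) ^ 2 ≤ θ ^ 3 * n) :
    ∃ F : MvPolynomial (Fin n × Fin 2) ℚ, F ≠ 0 ∧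
      ∀ (K : Type) [Field K] [CharZero K] (P : Fin n → Fin 2 → K),
        MvPolynomial.aeval (fun ij : Fin n × Fin 2 => P ij.1 ij.2) F ≠ 0 →
        ∀ d : ℕ, Module.finrank K (forms K w P d)
          = Nat.choose (d + 2) 2 - ∑ i, Nat.choose (w i + 1) 2 := by
  suffices h : ∃ F : MvPolynomial (Fin n × Fin 2) ℚ, F ≠ 0 ∧ ∀ {L : Type} [Field L] [CharZero L]
      (P : Fin n → Fin 2 → L), MvPolynomial.aeval (fun ij : Fin n × Fin 2 => P ij.1 ij.2) F ≠ 0 →
      ∀ d, H932R3.ExpDim L w P d by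
    obtain ⟨F, hF, hF'⟩ := h
    exact ⟨F, hF, fun K _ _ P hP d => hF' (L := K) P hP d⟩
  have hρ0 : 0 < ρ := by linarith
  have hM1 : (1 : ℝ) ≤ M := by exact_mod_cast hM
  have hrr : (1 : ℝ) ≤ r := by exact_mod_cast hr
  have hr2 : (1 : ℝ) ≤ (r : ℝ) ^ 2 := one_le_pow₀ hrr
  have hρ5 : 1 ≤ ρ ^ 5 := one_le_pow₀ hρ
  have hρr : 1 ≤ ρ ^ 5 * (r : ℝ) ^ 2 := by
    calc (1 : ℝ) = 1 * 1 := by ring
      _ ≤ ρ ^ 5 * (r : ℝ) ^ 2 := mul_le_mul hρ5 hr2 (by norm_num) (by positivity)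
  have hn00 : (0 : ℝ) ≤ n := Nat.cast_nonneg _
  have hθ3 : θ ^ 3 * n ≤ n := by
    have : θ ^ 3 ≤ 1 := pow_le_one₀ hθ.le hθ1
    nlinarith
  have hn9 : (1000000000 : ℝ) ≤ n := by
    have e : 1000000000 * ρ ^ 5 * (r : ℝ) ^ 2 = 1000000000 * (ρ ^ 5 * (r : ℝ) ^ 2) := by ring
    linarith
  have hn0 : 0 < n := by
    have : (0 : ℝ) < n := by linarith
    exact_mod_cast this
  obtain ⟨A, hA⟩ : ∃ A, A = univ.filter fun i : Fin n => (M : ℝ) ≤ ρ * w i := ⟨_, rfl⟩
  rw [← hA] at h2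
  have hAm : ∀ i ∈ A, (M : ℝ) ≤ ρ * w i := fun i hi => by
    rw [hA] at hi
    exact (mem_filter.1 hi).2
  -- the sum of the squares
  have hsq : θ * n * (M : ℝ) ^ 2 ≤ ρ ^ 2 * ((∑ p, w p ^ 2 : ℕ) : ℝ) := by
    have g1 : (A.card : ℝ) * (M : ℝ) ^ 2 ≤ ∑ i ∈ A, ρ ^ 2 * (w i : ℝ) ^ 2 := by
      rw [← nsmul_eq_mul]
      refine card_nsmul_le_sum _ _ _ fun i hi => ?_
      have := pow_le_pow_left₀ (Nat.cast_nonneg _) (hAm i hi) 2
      rwa [mul_pow] at this
    have g2 : ∑ i ∈ A, ρ ^ 2 * (w i : ℝ) ^ 2 ≤ ∑ i, ρ ^ 2 * (w i : ℝ) ^ 2 :=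
      sum_le_sum_of_subset_of_nonneg (subset_univ _) fun i _ _ => by positivity
    have g3 : θ * n * (M : ℝ) ^ 2 ≤ (A.card : ℝ) * (M : ℝ) ^ 2 :=
      mul_le_mul_of_nonneg_right h2 (by positivity)
    have e : ∑ i, ρ ^ 2 * (w i : ℝ) ^ 2 = ρ ^ 2 * ∑ i, (w i : ℝ) ^ 2 := by rw [mul_sum]
    push_cast
    linarith
  -- the sum
  have hsL : θ * n * (M : ℝ) ≤ ρ * ((∑ p, w p : ℕ) : ℝ) := by
    have g1 : (A.card : ℝ) * (M : ℝ) ≤ ∑ i ∈ A, ρ * (w i : ℝ) := by
      rw [← nsmul_eq_mul]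
      exact card_nsmul_le_sum _ _ _ fun i hi => hAm i hi
    have g2 : ∑ i ∈ A, ρ * (w i : ℝ) ≤ ∑ i, ρ * (w i : ℝ) :=
      sum_le_sum_of_subset_of_nonneg (subset_univ _) fun i _ _ => by positivity
    have g3 : θ * n * (M : ℝ) ≤ (A.card : ℝ) * (M : ℝ) :=
      mul_le_mul_of_nonneg_right h2 (by positivity)
    have e : ∑ i, ρ * (w i : ℝ) = ρ * ∑ i, (w i : ℝ) := by rw [mul_sum]
    push_cast
    linarith
  have hρ2 : 0 < ρ ^ 2 := by positivity
  rcases le_or_gt (2000 * ρ ^ 2 * r) (θ * (M : ℝ)) with hmr | hmr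
  · refine Y205.FW.few_all (μ := M) (r := r) hn0 h0 h1 h3 ?_ (Or.inr ?_)
    · have h : ((1000000 * r ^ 2 * M ^ 2 : ℕ) : ℝ) ≤ ((∑ p, w p ^ 2 : ℕ) : ℝ) := by
        refine le_of_mul_le_mul_left (le_trans ?_ hsq) hρ2
        push_cast
        have k1 : θ ^ 3 * n ≤ θ * n := by
          have : θ ^ 2 ≤ 1 := pow_le_one₀ hθ.le hθ1
          have e : θ ^ 3 * n = θ ^ 2 * (θ * n) := by ring
          rw [e]
          have : 0 ≤ θ * n := by positivity
          nlinarith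
        have k2 : ρ ^ 2 ≤ ρ ^ 5 := pow_le_pow_right₀ hρ (by norm_num)
        have k3 : ρ ^ 2 * (1000000 * (r : ℝ) ^ 2) ≤ θ * n := by
          have k4 : ρ ^ 2 * (r : ℝ) ^ 2 ≤ ρ ^ 5 * (r : ℝ) ^ 2 :=
            mul_le_mul_of_nonneg_right k2 (by positivity)
          have k5 : 0 ≤ ρ ^ 5 * (r : ℝ) ^ 2 := by positivity
          calc ρ ^ 2 * (1000000 * (r : ℝ) ^ 2) = 1000000 * (ρ ^ 2 * (r : ℝ) ^ 2) := by ring
            _ ≤ 1000000 * (ρ ^ 5 * (r : ℝ) ^ 2) := by linarith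
            _ ≤ 1000000000 * (ρ ^ 5 * (r : ℝ) ^ 2) := by linarith
            _ = 1000000000 * ρ ^ 5 * (r : ℝ) ^ 2 := by ring
            _ ≤ θ ^ 3 * n := hn
            _ ≤ θ * n := k1
        calc ρ ^ 2 * (1000000 * (r : ℝ) ^ 2 * (M : ℝ) ^ 2)
            = ρ ^ 2 * (1000000 * (r : ℝ) ^ 2) * (M : ℝ) ^ 2 := by ring
          _ ≤ θ * n * (M : ℝ) ^ 2 := mul_le_mul_of_nonneg_right k3 (by positivity)
      exact_mod_cast h
    · have h : ((2000 * n * r * M : ℕ) : ℝ) ≤ ((∑ p, w p ^ 2 : ℕ) : ℝ) := by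
        refine le_of_mul_le_mul_left (le_trans ?_ hsq) hρ2
        push_cast
        calc ρ ^ 2 * (2000 * (n : ℝ) * r * M) = n * M * (2000 * ρ ^ 2 * r) := by ring
          _ ≤ n * M * (θ * M) := mul_le_mul_of_nonneg_left hmr (by positivity)
          _ = θ * n * (M : ℝ) ^ 2 := by ring
      exact_mod_cast h
  · refine Y205.MD.expDim_of_crit ?_ fun _ hT1 hT2 =>
      Y205.MD.crit_all (μ := max M 2) (le_max_right _ _)
        (fun p => (h1 p).trans (le_max_left _ _)) ?_ hT1 hT2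
    · have g1 : (w ⟨0, hn0⟩ + 1).choose 2 ≤ ∑ p, (w p + 1).choose 2 :=
        single_le_sum (f := fun p => (w p + 1).choose 2) (fun _ _ => Nat.zero_le _) (mem_univ _)
      have g2 : 0 < (w ⟨0, hn0⟩ + 1).choose 2 := Nat.choose_pos (by
        have := h0 ⟨0, hn0⟩
        omega)
      omega
    · have h : ((150 * (max M 2) ^ 3 : ℕ) : ℝ) ≤ ((∑ p, w p : ℕ) : ℝ) := by
        rcases le_total M 2 with hM2 | hM2
        · rw [max_eq_right hM2]
          have g : n ≤ ∑ p, w p := by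
            have : ∑ _p : Fin n, 1 ≤ ∑ p, w p := sum_le_sum fun p _ => h0 p
            rwa [sum_const, card_univ, Fintype.card_fin, smul_eq_mul, mul_one] at this
          have g' : (n : ℝ) ≤ ((∑ p, w p : ℕ) : ℝ) := by exact_mod_cast g
          refine le_trans ?_ g'
          push_cast
          linarith
        · rw [max_eq_left hM2]
          refine le_of_mul_le_mul_left (le_trans ?_ hsL) hρ0
          push_cast
          have k1 : (θ * M) ^ 2 ≤ (2000 * ρ ^ 2 * r) ^ 2 :=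
            pow_le_pow_left₀ (by positivity) hmr.le 2
          have k2 : 150 * ρ * (M : ℝ) ^ 2 ≤ θ * n := by
            have k3 : 0 < θ ^ 2 := by positivity
            refine le_of_mul_le_mul_left ?_ k3
            calc θ ^ 2 * (150 * ρ * (M : ℝ) ^ 2) = 150 * ρ * (θ * M) ^ 2 := by ring
              _ ≤ 150 * ρ * (2000 * ρ ^ 2 * r) ^ 2 := mul_le_mul_of_nonneg_left k1 (by positivity)
              _ = 600000000 * (ρ ^ 5 * (r : ℝ) ^ 2) := by ring
              _ ≤ 1000000000 * (ρ ^ 5 * (r : ℝ) ^ 2) := by linarith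
              _ = 1000000000 * ρ ^ 5 * (r : ℝ) ^ 2 := by ring
              _ ≤ θ ^ 3 * n := hn
              _ = θ ^ 2 * (θ * n) := by ring
          calc ρ * (150 * (M : ℝ) ^ 3) = 150 * ρ * (M : ℝ) ^ 2 * M := by ring
            _ ≤ θ * n * M := mul_le_mul_of_nonneg_right k2 (by positivity)
      exact_mod_cast h

end Pool.Agent.Results.MP_cfebfb_ag.LargeFraction
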